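import Mathlib

/-! # The explicit identities behind the ideal class of order two -/

set_option autoImplicit false

namespace Q286.JF

def ef {B : Type*} [CommRing B] (y z : B) : B := (131 + 109 * y + 116 * y ^ 2 + 166 * y ^ 3) +
    (115 + 1 * y) * z
def eu {B : Type*} [CommRing B] (y : B) : B := 171 + 32 * y + 87 * y ^ 2 + 144 * y ^ 3 + 114 * y ^
    4 + 1 * y ^ 5
def eft {B : Type*} [CommRing B] (x y z : B) : B := (47 + 169 * y + 36 * y ^ 2 + 117 * y ^ 3 + 93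
    * y ^ 4 + 105 * y ^ 5 + 94 * y ^ 6) + (59 + 70 * y + 83 * y ^ 2 + 97 * y ^ 3 + 33 * y ^ 4) * z
    + (91 * y + 31 * y ^ 2 + 1 * y ^ 3) * x
def er {B : Type*} [CommRing B] (y z : B) : B := (157 + 82 * y + 81 * y ^ 2 + 54 * y ^ 3 + 69 * y
    ^ 4 + 125 * y ^ 5 + 96 * y ^ 6 + 30 * y ^ 7 + 132 * y ^ 8 + 174 * y ^ 9) + (170 + 110 * y + 90
    * y ^ 2 + 151 * y ^ 3 + 150 * y ^ 4 + 137 * y ^ 5 + 157 * y ^ 6) * z
def es {B : Type*} [CommRing B] (x y z : B) : B := (30 + 11 * y + 94 * y ^ 2 + 182 * y ^ 3 + 50 *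
    y ^ 4 + 100 * y ^ 5 + 197 * y ^ 6 + 141 * y ^ 7) + (27 + 131 * y + 37 * y ^ 2) * z + (97 + 44
    * y + 129 * y ^ 2 + 80 * y ^ 3) * x
def et {B : Type*} [CommRing B] (x y : B) : B := (190 + 44 * y + 29 * y ^ 2) + (134 + 184 * y + 25
    * y ^ 2) * x

theorem id1 {B : Type*} [CommRing B] (x y z : B) (h : (199 : B) = 0) (hzz : z ^ 2 = x * y)
    (hzx : z * x = 8 * z + y ^ 6) :
    ef y z * eft x y z = eu y ^ 2 := by
  unfold ef eft eu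
  linear_combination (6785 + 8109 * y + 9615 * y ^ 2 + 11238 * y ^ 3 + 3892 * y ^ 4 + 33 * y ^ 5)
      * hzz + (10465 * y + 3656 * y ^ 2 + 146 * y ^ 3 + 1 * y ^ 4) * hzx + ((-116 + 82 * y - 11 *
      y ^ 2 - 41 * y ^ 3 + 7 * y ^ 4 + 54 * y ^ 5 + 67 * y ^ 6 + 77 * y ^ 7 + 94 * y ^ 8 + 78 * y
      ^ 9) + (66 + 597 * y + 296 * y ^ 2 + 273 * y ^ 3 + 236 * y ^ 4 + 205 * y ^ 5 + 155 * y ^ 6 +
      28 * y ^ 7) * z + (94 * y + 111 * y ^ 2 + 119 * y ^ 3 + 151 * y ^ 4 + 46 * y ^ 5 + 1 * y ^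
      6) * x) * h

theorem id2 {B : Type*} [CommRing B] (x y z : B) (h : (199 : B) = 0) (hzz : z ^ 2 = x * y)
    (hzx : z * x = 8 * z + y ^ 6) (hxx : x ^ 2 = 8 * x + y ^ 5 * z) :
    er y z * ef y z + es x y z * eu y + et x y * eft x y z = 1 := by
  unfold ef eft eu er es et
  linear_combination (19550 + 12820 * y + 10460 * y ^ 2 + 17455 * y ^ 3 + 17401 * y ^ 4 + 15905 *
      y ^ 5 + 18192 * y ^ 6 + 157 * y ^ 7) * hzz + (7906 + 20236 * y + 25477 * y ^ 2 + 30020 * y ^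
      3 + 24345 * y ^ 4 + 8497 * y ^ 5 + 825 * y ^ 6) * hzx + (12194 * y + 20898 * y ^ 2 + 8113 *
      y ^ 3 + 959 * y ^ 4 + 25 * y ^ 5) * hxx + ((174 + 326 * y + 364 * y ^ 2 + 601 * y ^ 3 + 449
      * y ^ 4 + 605 * y ^ 5 + 776 * y ^ 6 + 678 * y ^ 7 + 616 * y ^ 8 + 697 * y ^ 9 + 535 * y ^ 10
      + 336 * y ^ 11 + 150 * y ^ 12) + (600 + 1224 * y + 1458 * y ^ 2 + 1797 * y ^ 3 + 1536 * y ^
      4 + 873 * y ^ 5 + 569 * y ^ 6 + 414 * y ^ 7 + 323 * y ^ 8 + 237 * y ^ 9 + 1 * y ^ 10) * z +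
      (115 + 886 * y + 1301 * y ^ 2 + 712 * y ^ 3 + 463 * y ^ 4 + 414 * y ^ 5 + 384 * y ^ 6 + 238
      * y ^ 7 + 13 * y ^ 8) * x) * h

end Q286.JF
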