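import Mathlib

/-! # Integral bases with squarefree discriminant -/

set_option autoImplicit false

namespace Q286.JF

open Matrix

/-- If an element `r` of the fraction field of a UFD satisfies `r ^ 2 * d ∈ R` with `d` squarefree,
then `r ∈ R`. -/
theorem mem_of_sq_mul {R K : Type*} [CommRing R] [IsDomain R] [UniqueFactorizationMonoid R]
    [Field K] [Algebra R K] [IsFractionRing R K] (d : R) (hd : Squarefree d) (r : K)
    (h : ∃ e : R, r ^ 2 * algebraMap R K d = algebraMap R K e) : ∃ s : R, r = algebraMap R K s := by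
  obtain ⟨e, he⟩ := h
  obtain ⟨m, n, hn, hmn, hr⟩ : ∃ m n : R, n ≠ 0 ∧ IsRelPrime m n ∧ r * algebraMap R K n = algebraMap R K m := by
    obtain ⟨a, b, h1, h2⟩ := IsFractionRing.exists_reduced_fraction (A := R) r
    refine ⟨a, b, nonZeroDivisors.ne_zero b.2, h1, ?_⟩
    rw [← h2]
    have := IsLocalization.mk'_spec K a b
    exact this
  have hinj : Function.Injective (algebraMap R K) := IsFractionRing.injective R K
  have h1 : m ^ 2 * d = e * n ^ 2 := by
    apply hinj
    rw [map_mul, map_pow, map_mul, map_pow, ← hr, ← he]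
    ring
  have h2 : n ^ 2 ∣ m ^ 2 * d := ⟨e, by rw [h1]; ring⟩
  have h3 : n ^ 2 ∣ d := by
    refine (IsRelPrime.pow_left (m := 2) (IsRelPrime.pow_right (n := 2) hmn)).symm.dvd_of_dvd_mul_left h2
  have h4 : IsUnit n := hd n (by rw [← sq]; exact h3)
  obtain ⟨u, hu⟩ := h4
  refine ⟨m * (↑u⁻¹ : R), ?_⟩
  rw [map_mul, ← hr, mul_assoc, ← map_mul, ← hu, Units.mul_inv, map_one, mul_one]

theorem repr_of_sqfree {R K L ι : Type*} [CommRing R] [IsDomain R] [UniqueFactorizationMonoid R]
    [Field K] [Algebra R K] [IsFractionRing R K] [Field L] [Algebra K L] [Algebra R L]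
    [IsScalarTower R K L] [FiniteDimensional K L] [IsIntegrallyClosed R]
    [Fintype ι] [DecidableEq ι] (b : Module.Basis ι K L) (hb : ∀ i, IsIntegral R (b i)) (d : R)
    (hd : Squarefree d) (hdisc : Algebra.discr K b = algebraMap R K d) (w : L)
    (hw : IsIntegral R w) (i : ι) : ∃ s : R, b.repr w i = algebraMap R K s := by
  apply mem_of_sq_mul d hd
  set P : Matrix ι ι K := (1 : Matrix ι ι K).updateCol i (b.repr w) with hP
  have hdet : P.det = b.repr w i := by
    rw [hP, ← Matrix.cramer_apply, Matrix.cramer_one]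
    rfl
  have h1 : (b : ι → L) ᵥ* P.map (algebraMap K L) = Function.update b i w := by
    funext j
    rw [Matrix.vecMul, dotProduct]
    by_cases hj : j = i
    · subst hj
      rw [Function.update_self]
      conv_rhs => rw [← b.sum_repr w]
      refine Finset.sum_congr rfl fun k _ => ?_
      rw [Matrix.map_apply, hP, Matrix.updateCol_self, Algebra.smul_def, mul_comm]
    · rw [Function.update_of_ne hj]
      rw [Finset.sum_eq_single j]
      · rw [Matrix.map_apply, hP, Matrix.updateCol_ne hj, Matrix.one_apply_eq, map_one, mul_one]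
      · intro k _ hk
        rw [Matrix.map_apply, hP, Matrix.updateCol_ne hj, Matrix.one_apply_ne hk, map_zero, mul_zero]
      · intro h
        exact absurd (Finset.mem_univ j) h
  have h2 := Algebra.discr_of_matrix_vecMul (A := K) (b : ι → L) P
  rw [h1, hdet, hdisc] at h2
  have h3 : IsIntegral R (Algebra.discr K (Function.update b i w)) := by
    apply Algebra.discr_isIntegral
    intro j
    by_cases hj : j = i
    · subst hj
      rw [Function.update_self]
      exact hw
    · rw [Function.update_of_ne hj]
      exact hb j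
  obtain ⟨e, he⟩ := IsIntegrallyClosed.isIntegral_iff.1 h3
  exact ⟨e, by rw [← h2, he]⟩

end Q286.JF
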