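import Mathlib
import Pool.Agent.Q286.JF.Disc

/-! # The curve `y ^ 11 = x (8 - x) ^ 2` over `𝔽₁₉₉` as a cubic extension of `𝔽₁₉₉(y)` -/

set_option autoImplicit false
set_option linter.unusedSectionVars false

namespace Q286.JF

open Polynomial

instance fact199 : Fact (Nat.Prime 199) := ⟨by norm_num⟩

/-- The field with 199 elements. -/
abbrev k := ZMod 199

variable {K F : Type} [Field K] [Algebra k[X] K] [IsFractionRing k[X] K] [Field F]
  [Algebra k[X] F] [Algebra K F] [IsScalarTower k[X] K F]

/-- The cubic polynomial `T (T - 8) ^ 2 - Y ^ 11`. -/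
noncomputable def cub : k[X][X] := X * (X - 8) ^ 2 - C (X ^ 11)

theorem eight : (8 : k[X]) = C 8 := (map_ofNat C 8).symm

theorem cub_eq : cub = X ^ 3 + (-16 * X ^ 2 + 64 * X - C (X ^ 11)) := by
  unfold cub; ring

theorem cub_low : (-16 * X ^ 2 + 64 * X - C (X ^ 11) : k[X][X]).degree < 3 := by
  have h1 : (-16 * X ^ 2 + 64 * X - C (X ^ 11) : k[X][X]) =
      C (-16) * X ^ 2 + C 64 * X + C (-(X ^ 11)) := by
    simp only [map_neg, map_ofNat]; ring
  rw [h1]
  exact (degree_quadratic_le).trans_lt (by norm_num)

theorem cub_monic : cub.Monic := by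
  rw [cub_eq]
  exact monic_X_pow_add cub_low

theorem cub_natDegree : cub.natDegree = 3 := by
  rw [cub_eq]
  refine natDegree_eq_of_degree_eq_some ?_
  rw [degree_add_eq_left_of_degree_lt (by rw [degree_X_pow]; exact cub_low), degree_X_pow]

theorem no_root (r : K) : ¬ IsRoot (cub.map (algebraMap k[X] K)) r := by
  intro h
  have h1 : IsIntegral k[X] r := ⟨cub, cub_monic, by rw [IsRoot, eval_map] at h; exact h⟩
  obtain ⟨s, hs⟩ := IsIntegrallyClosed.isIntegral_iff.1 h1
  have h2 : s * (s - 8) ^ 2 = X ^ 11 := by
    apply IsFractionRing.injective k[X] K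
    have h3 : r * (r - 8) ^ 2 - algebraMap k[X] K X ^ 11 = 0 := by
      have : eval r (cub.map (algebraMap k[X] K)) = r * (r - 8) ^ 2 - algebraMap k[X] K X ^ 11 := by
        rw [cub, eval_map, eval₂_sub, eval₂_mul, eval₂_pow, eval₂_sub, eval₂_X, eval₂_C, map_pow,
          eval₂_ofNat]
      rw [← this]; exact h
    rw [map_mul, map_pow, map_sub, map_pow, hs, map_ofNat]
    linear_combination h3
  have h8 : (8 : k[X]) = C 8 := eight
  by_cases hc : s.natDegree = 0
  · obtain ⟨c, rfl⟩ := natDegree_eq_zero.1 hc
    have h4 : (C c * (C c - 8) ^ 2 : k[X]) = C (c * (c - 8) ^ 2) := by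
      rw [h8]; simp
    rw [h4] at h2
    have := congrArg natDegree h2
    rw [natDegree_C, natDegree_X_pow] at this
    omega
  · have h5 : (s - 8).natDegree = s.natDegree := by
      rw [h8, natDegree_sub_C]
    have := congrArg natDegree h2
    have hs0 : s ≠ 0 := by rintro rfl; simp at hc
    have hs8 : s - 8 ≠ 0 := by
      intro h; rw [h, natDegree_zero] at h5; omega
    rw [natDegree_mul hs0 (pow_ne_zero _ hs8), natDegree_pow, h5, natDegree_X_pow] at this
    omega

theorem cub_irr : Irreducible (cub.map (algebraMap k[X] K)) := by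
  have hm : (cub.map (algebraMap k[X] K)).Monic := cub_monic.map _
  have hd : (cub.map (algebraMap k[X] K)).natDegree = 3 := by
    rw [cub_monic.natDegree_map, cub_natDegree]
  rw [irreducible_iff_roots_eq_zero_of_degree_le_three (by omega) (by omega)]
  rw [Multiset.eq_zero_iff_forall_notMem]
  intro r hr
  exact no_root r (isRoot_of_mem_roots hr)

variable (K F) in
/-- The data: `x` and `z = y ^ 6 / (x - 8)`, where `y` is the image of the variable. -/
structure Dat (x z : F) : Prop where
  zz : z ^ 2 = x * algebraMap k[X] F X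
  zx : z * x = 8 * z + algebraMap k[X] F X ^ 6
  xx : x ^ 2 = 8 * x + algebraMap k[X] F X ^ 5 * z
  top : IntermediateField.adjoin K {x} = ⊤

variable {x z : F}

theorem inj (K : Type) [Field K] [Algebra k[X] K] [IsFractionRing k[X] K] [Algebra K F]
    [IsScalarTower k[X] K F] : Function.Injective (algebraMap k[X] F) := by
  rw [IsScalarTower.algebraMap_eq k[X] K F]
  exact (algebraMap K F).injective.comp (IsFractionRing.injective k[X] K)

theorem Y_ne (K : Type) [Field K] [Algebra k[X] K] [IsFractionRing k[X] K] [Algebra K F]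
    [IsScalarTower k[X] K F] : algebraMap k[X] F X ≠ 0 := by
  intro h
  have := inj K (F := F) (h.trans (map_zero _).symm)
  exact X_ne_zero this

theorem Dat.root (h : Dat K F x z) : aeval x (cub.map (algebraMap k[X] K)) = 0 := by
  have h1 := h.zz; have h2 := h.zx; have h3 := h.xx
  rw [aeval_map_algebraMap]
  have h4 : aeval x cub = x * (x - 8) ^ 2 - algebraMap k[X] F X ^ 11 := by
    rw [cub]
    simp [map_ofNat]
  rw [h4]
  linear_combination (x - 8) * h3 + algebraMap k[X] F X ^ 5 * h2

theorem Dat.minpoly (h : Dat K F x z) : minpoly K x = cub.map (algebraMap k[X] K) :=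
  (minpoly.eq_of_irreducible_of_monic cub_irr h.root (cub_monic.map _)).symm

theorem Dat.integral (h : Dat K F x z) : IsIntegral K x :=
  ⟨_, cub_monic.map _, h.root⟩

theorem Dat.finrank (h : Dat K F x z) : Module.finrank K F = 3 := by
  have h1 := IntermediateField.adjoin.finrank h.integral
  rw [h.minpoly, cub_monic.natDegree_map, cub_natDegree] at h1
  rw [← h1, h.top]
  exact (IntermediateField.finrank_top').symm

theorem Dat.finite (h : Dat K F x z) : FiniteDimensional K F :=
  Module.finite_of_finrank_pos (by rw [h.finrank]; norm_num)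

theorem Dat.z_eq (h : Dat K F x z) : algebraMap k[X] F X ^ 5 * z = x ^ 2 - 8 * x := by
  linear_combination -h.xx

theorem Dat.indep3 (h : Dat K F x z) (a b c : K)
    (h0 : algebraMap K F a + algebraMap K F b * x + algebraMap K F c * x ^ 2 = 0) :
    a = 0 ∧ b = 0 ∧ c = 0 := by
  have h1 : aeval x (C a + C b * X + C c * X ^ 2 : K[X]) = 0 := by
    simpa using h0
  have h2 : (C a + C b * X + C c * X ^ 2 : K[X]) = 0 := by
    by_contra hne
    have h3 := minpoly.degree_le_of_ne_zero K x hne h1
    rw [h.minpoly, degree_eq_natDegree (cub_monic.map _).ne_zero, cub_monic.natDegree_map,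
      cub_natDegree] at h3
    have h4 : (C a + C b * X + C c * X ^ 2 : K[X]).degree ≤ 2 := by
      rw [show (C a + C b * X + C c * X ^ 2 : K[X]) = C c * X ^ 2 + C b * X + C a by ring]
      exact degree_quadratic_le
    exact absurd (h3.trans h4) (by norm_num)
  have h3 := congrArg (fun p => coeff p 0) h2
  have h4 := congrArg (fun p => coeff p 1) h2
  have h5 := congrArg (fun p => coeff p 2) h2
  simp [coeff_X, coeff_C] at h3 h4 h5
  exact ⟨h3, h4, h5⟩

theorem Dat.indep (h : Dat K F x z) : LinearIndependent K ![1, z, x] := by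
  rw [Fintype.linearIndependent_iff]
  intro g hg
  simp only [Fin.sum_univ_three, Matrix.cons_val_zero, Matrix.cons_val_one, Matrix.cons_val] at hg
  have hY : algebraMap K F (algebraMap k[X] K X) = algebraMap k[X] F X :=
    (IsScalarTower.algebraMap_apply k[X] K F X).symm
  have hYK : (algebraMap k[X] K X) ≠ 0 := by
    intro h0; rw [h0, map_zero] at hY; exact Y_ne K hY.symm
  obtain ⟨h1, h2, h3⟩ := h.indep3 (g 0 * algebraMap k[X] K X ^ 5)
    (g 2 * algebraMap k[X] K X ^ 5 - 8 * g 1) (g 1) (by
      simp only [Algebra.smul_def] at hg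
      simp only [map_mul, map_sub, map_pow, map_ofNat, hY]
      have hz := h.z_eq
      linear_combination algebraMap k[X] F X ^ 5 * hg - algebraMap K F (g 1) * hz)
  rw [h3] at h2
  intro i
  fin_cases i
  · simpa [hYK] using h1
  · exact h3
  · simpa [hYK] using h2

/-- The basis `1, z, x`. -/
noncomputable def Dat.basis (h : Dat K F x z) : Module.Basis (Fin 3) K F :=
  haveI := h.finite
  basisOfLinearIndependentOfCardEqFinrank h.indep (by rw [h.finrank]; rfl)

theorem Dat.basis_coe (h : Dat K F x z) : (h.basis : Fin 3 → F) = ![1, z, x] := by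
  unfold Dat.basis
  rw [coe_basisOfLinearIndependentOfCardEqFinrank]

/-- The matrix of the multiplication by `a + b z + c x`. -/
noncomputable def mulMat (Y a b c : K) : Matrix (Fin 3) (Fin 3) K :=
  !![a, c * Y ^ 6, b * Y ^ 6; b, a + 8 * c, 8 * b + c * Y ^ 5; c, b * Y, a + 8 * c]

theorem Dat.lmul (h : Dat K F x z) (a b c : K) :
    Algebra.lmul K F (algebraMap K F a + algebraMap K F b * z + algebraMap K F c * x) =
      Matrix.toLin h.basis h.basis (mulMat (algebraMap k[X] K X) a b c) := by
  have hY : algebraMap K F (algebraMap k[X] K X) = algebraMap k[X] F X :=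
    (IsScalarTower.algebraMap_apply k[X] K F X).symm
  have h1 := h.zz; have h2 := h.zx; have h3 := h.xx
  apply h.basis.ext
  intro i
  rw [Matrix.toLin_self, Fin.sum_univ_three]
  simp only [h.basis_coe]
  fin_cases i
  · simp [mulMat, Algebra.smul_def, map_ofNat]
  · simp [mulMat, Algebra.smul_def, hY, map_ofNat]
    linear_combination algebraMap K F b * h1 + algebraMap K F c * h2
  · simp [mulMat, Algebra.smul_def, hY, map_ofNat]
    linear_combination algebraMap K F b * h2 + algebraMap K F c * h3

theorem Dat.norm (h : Dat K F x z) (a b c : K) :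
    Algebra.norm K (algebraMap K F a + algebraMap K F b * z + algebraMap K F c * x) =
      (mulMat (algebraMap k[X] K X) a b c).det := by
  rw [Algebra.norm_apply, h.lmul, LinearMap.det_toLin]

theorem Dat.trace (h : Dat K F x z) (a b c : K) :
    Algebra.trace K F (algebraMap K F a + algebraMap K F b * z + algebraMap K F c * x) =
      3 * a + 16 * c := by
  rw [Algebra.trace_apply, h.lmul, Matrix.trace_toLin_eq, Matrix.trace_fin_three]
  simp [mulMat]
  ring

end Q286.JF
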