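import Mathlib
import Pool.Agent.Q286.JF.Cubic

/-! # Integral elements of the function field, and the degree of their norms -/

set_option autoImplicit false
set_option linter.unusedSectionVars false

namespace Q286.JF

open Polynomial

variable {K F : Type} [Field K] [Algebra k[X] K] [IsFractionRing k[X] K] [Field F]
  [Algebra k[X] F] [Algebra K F] [IsScalarTower k[X] K F] {x z : F}

/-- The discriminant. -/
noncomputable def dd : k[X] := 2048 * X - 27 * X ^ 12

theorem Dat.discr (h : Dat K F x z) : Algebra.discr K h.basis = algebraMap k[X] K dd := by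
  have hY : algebraMap K F (algebraMap k[X] K X) = algebraMap k[X] F X :=
    (IsScalarTower.algebraMap_apply k[X] K F X).symm
  have h1 := h.zz; have h2 := h.zx; have h3 := h.xx
  have tr : ∀ (w : F) (a b c : K), w = algebraMap K F a + algebraMap K F b * z +
      algebraMap K F c * x → Algebra.trace K F w = 3 * a + 16 * c := by
    rintro w a b c rfl
    exact h.trace a b c
  have hM : Algebra.traceMatrix K h.basis = !![3, 0, 16; 0, 16 * algebraMap k[X] K X,
      3 * algebraMap k[X] K X ^ 6; 16, 3 * algebraMap k[X] K X ^ 6, 128] := by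
    ext i j
    rw [Algebra.traceMatrix_apply, Algebra.traceForm_apply]
    simp only [h.basis_coe]
    fin_cases i <;> fin_cases j
    · simp
      rw [tr 1 1 0 0 (by simp)]; ring
    · simp
      rw [tr z 0 1 0 (by simp)]; ring
    · simp
      rw [tr x 0 0 1 (by simp)]; ring
    · simp
      rw [tr z 0 1 0 (by simp)]; ring
    · simp
      rw [tr (z * z) 0 0 (algebraMap k[X] K X) (by
        rw [hY]; simp; linear_combination h1)]; ring
    · simp
      rw [tr (z * x) (algebraMap k[X] K X ^ 6) 8 0 (by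
        rw [map_pow, hY]; simp [map_ofNat]; linear_combination h2)]; ring
    · simp
      rw [tr x 0 0 1 (by simp)]; ring
    · simp
      rw [tr (x * z) (algebraMap k[X] K X ^ 6) 8 0 (by
        rw [map_pow, hY]; simp [map_ofNat]; linear_combination h2)]; ring
    · simp
      rw [tr (x * x) 0 (algebraMap k[X] K X ^ 5) 8 (by
        rw [map_pow, hY]; simp [map_ofNat]; linear_combination h3)]; ring
  rw [Algebra.discr_def, hM, Matrix.det_fin_three]
  simp [dd, map_ofNat]
  ring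

theorem c199 : (199 : k[X]) = 0 := by
  rw [show (199 : k[X]) = C 199 from (map_ofNat C 199).symm]
  rw [show (199 : k) = 0 from rfl, map_zero]

theorem dd_sqfree : Squarefree dd := by
  apply Separable.squarefree
  rw [Separable]
  have hd : derivative dd = 2048 - 324 * X ^ 11 := by
    simp only [dd, derivative_sub, derivative_mul, derivative_ofNat, derivative_X,
      derivative_X_pow]
    rw [show C ((12 : ℕ) : k) = 12 from by simp [map_ofNat]]
    ring
  rw [hd]
  -- `X = (12 p - X p') / (11 * 2048)`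
  refine ⟨C ((2048 * 11 * 2048 : k)⁻¹) * (324 * X ^ 10 * 12), C ((2048 * 11 * 2048 : k)⁻¹) *
    (11 * 2048 - 324 * X ^ 11), ?_⟩
  have e : C ((2048 * 11 * 2048 : k)⁻¹) * (2048 * 11 * 2048) = 1 := by
    rw [show (2048 * 11 * 2048 : k[X]) = C (2048 * 11 * 2048) by simp [map_ofNat], ← C_mul,
      inv_mul_cancel₀ (by decide), C_1]
  unfold dd
  linear_combination e

theorem Dat.int_z (h : Dat K F x z) (hx : IsIntegral k[X] x) : IsIntegral k[X] z := by
  apply IsIntegral.of_pow (n := 2) (by norm_num)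
  rw [h.zz]
  exact hx.mul isIntegral_algebraMap

theorem Dat.int_x (h : Dat K F x z) : IsIntegral k[X] x := by
  refine ⟨cub, cub_monic, ?_⟩
  have := h.root
  rw [aeval_map_algebraMap] at this
  exact this

theorem Dat.int (h : Dat K F x z) (w : F) (hw : IsIntegral k[X] w) : ∃ α β γ : k[X],
    w = algebraMap k[X] F α + algebraMap k[X] F β * z + algebraMap k[X] F γ * x := by
  have := h.finite
  have hb : ∀ i, IsIntegral k[X] (h.basis i) := by
    intro i
    rw [h.basis_coe]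
    fin_cases i
    · exact isIntegral_one
    · exact h.int_z h.int_x
    · exact h.int_x
  have key := repr_of_sqfree h.basis hb dd dd_sqfree h.discr w hw
  obtain ⟨α, hα⟩ := key 0
  obtain ⟨β, hβ⟩ := key 1
  obtain ⟨γ, hγ⟩ := key 2
  refine ⟨α, β, γ, ?_⟩
  conv_lhs => rw [← h.basis.sum_repr w]
  rw [Fin.sum_univ_three, hα, hβ, hγ, h.basis_coe]
  simp [Algebra.smul_def, ← IsScalarTower.algebraMap_apply]

/-- The norm form. -/
noncomputable def form (α β γ : k[X]) : k[X] :=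
  C 1 * (α ^ 3 * β ^ 0 * γ ^ 0 * X ^ 0) + (C 1 * (α ^ 0 * β ^ 3 * γ ^ 0 * X ^ 7) +
  (C 1 * (α ^ 0 * β ^ 0 * γ ^ 3 * X ^ 11) + (C 16 * (α ^ 2 * β ^ 0 * γ ^ 1 * X ^ 0) +
  (C 64 * (α ^ 1 * β ^ 0 * γ ^ 2 * X ^ 0) + (C (-8) * (α ^ 1 * β ^ 2 * γ ^ 0 * X ^ 1) +
  (C (-3) * (α ^ 1 * β ^ 1 * γ ^ 1 * X ^ 6) + C (-8) * (α ^ 0 * β ^ 1 * γ ^ 2 * X ^ 6)))))))

theorem Dat.norm_form (h : Dat K F x z) (α β γ : k[X]) :
    Algebra.norm K (algebraMap k[X] F α + algebraMap k[X] F β * z + algebraMap k[X] F γ * x) =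
      algebraMap k[X] K (form α β γ) := by
  have := h.norm (algebraMap k[X] K α) (algebraMap k[X] K β) (algebraMap k[X] K γ)
  simp only [← IsScalarTower.algebraMap_apply] at this
  rw [this, Matrix.det_fin_three]
  have e16 : (C 16 : k[X]) = 16 := map_ofNat C 16
  have e64 : (C 64 : k[X]) = 64 := map_ofNat C 64
  have e8 : (C (-8) : k[X]) = -8 := by rw [map_neg, map_ofNat]
  have e3 : (C (-3) : k[X]) = -3 := by rw [map_neg, map_ofNat]
  rw [form, e16, e64, e8, e3]
  simp [mulMat, map_ofNat]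
  ring

theorem term_degree (c : k) (α β γ : k[X]) (i j l m n : ℕ)
    (hn : c ≠ 0 → (i ≠ 0 → α ≠ 0) → (j ≠ 0 → β ≠ 0) → (l ≠ 0 → γ ≠ 0) →
      i * α.natDegree + j * β.natDegree + l * γ.natDegree + m < n) :
    (C c * (α ^ i * β ^ j * γ ^ l * X ^ m)).degree < (n : WithBot ℕ) := by
  by_cases h0 : C c * (α ^ i * β ^ j * γ ^ l * X ^ m) = 0
  · rw [h0, degree_zero]
    exact WithBot.bot_lt_coe n
  · rw [degree_eq_natDegree h0]
    have h1 : c ≠ 0 := by rintro rfl; simp at h0
    have h2 : i ≠ 0 → α ≠ 0 := by rintro hi rfl; simp [hi] at h0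
    have h3 : j ≠ 0 → β ≠ 0 := by rintro hi rfl; simp [hi] at h0
    have h4 : l ≠ 0 → γ ≠ 0 := by rintro hi rfl; simp [hi] at h0
    have h5 := hn h1 h2 h3 h4
    have h6 : (C c * (α ^ i * β ^ j * γ ^ l * X ^ m)).natDegree ≤
        i * α.natDegree + j * β.natDegree + l * γ.natDegree + m := by
      refine (natDegree_C_mul_le _ _).trans ?_
      refine natDegree_mul_le_of_le (natDegree_mul_le_of_le (natDegree_mul_le_of_le ?_ ?_) ?_) ?_
      · exact natDegree_pow_le
      · exact natDegree_pow_le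
      · exact natDegree_pow_le
      · exact natDegree_X_pow_le m
    exact_mod_cast h6.trans_lt h5

theorem lt_add {p q : k[X]} {n : WithBot ℕ} (hp : p.degree < n) (hq : q.degree < n) :
    (p + q).degree < n :=
  (degree_add_le p q).trans_lt (max_lt hp hq)

theorem eq_of {m r : k[X]} {n : ℕ} (hm : m.degree = n) (hr : r.degree < (n : WithBot ℕ)) :
    (m + r).natDegree = n := by
  apply natDegree_eq_of_degree_eq_some
  rw [degree_add_eq_left_of_degree_lt (by rw [hm]; exact hr), hm]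

theorem form_A (α β γ : k[X]) (h0 : γ ≠ 0)
    (h1 : α ≠ 0 → 3 * α.natDegree < 3 * γ.natDegree + 11)
    (h2 : β ≠ 0 → 3 * β.natDegree + 7 < 3 * γ.natDegree + 11) :
    (form α β γ).natDegree = 3 * γ.natDegree + 11 := by
  have e : form α β γ = γ ^ 3 * X ^ 11 +
      (C 1 * (α ^ 3 * β ^ 0 * γ ^ 0 * X ^ 0) + (C 1 * (α ^ 0 * β ^ 3 * γ ^ 0 * X ^ 7) +
      (C 16 * (α ^ 2 * β ^ 0 * γ ^ 1 * X ^ 0) +
      (C 64 * (α ^ 1 * β ^ 0 * γ ^ 2 * X ^ 0) + (C (-8) * (α ^ 1 * β ^ 2 * γ ^ 0 * X ^ 1) +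
      (C (-3) * (α ^ 1 * β ^ 1 * γ ^ 1 * X ^ 6) +
        C (-8) * (α ^ 0 * β ^ 1 * γ ^ 2 * X ^ 6))))))) := by
    unfold form; rw [C_1]; ring
  rw [e]
  apply eq_of
  · rw [degree_mul, degree_pow, degree_X_pow, degree_eq_natDegree h0]
    push_cast; rfl
  · refine lt_add ?_ (lt_add ?_ (lt_add ?_ (lt_add ?_ (lt_add ?_ (lt_add ?_ ?_)))))
    · exact term_degree _ _ _ _ _ _ _ _ _ fun _ i1 i2 i3 => by
        have a := h1 (i1 (by norm_num)); omega
    · exact term_degree _ _ _ _ _ _ _ _ _ fun _ i1 i2 i3 => by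
        have b := h2 (i2 (by norm_num)); omega
    · exact term_degree _ _ _ _ _ _ _ _ _ fun _ i1 i2 i3 => by
        have a := h1 (i1 (by norm_num)); omega
    · exact term_degree _ _ _ _ _ _ _ _ _ fun _ i1 i2 i3 => by
        have a := h1 (i1 (by norm_num)); omega
    · exact term_degree _ _ _ _ _ _ _ _ _ fun _ i1 i2 i3 => by
        have a := h1 (i1 (by norm_num)); have b := h2 (i2 (by norm_num)); omega
    · exact term_degree _ _ _ _ _ _ _ _ _ fun _ i1 i2 i3 => by
        have a := h1 (i1 (by norm_num)); have b := h2 (i2 (by norm_num)); omega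
    · exact term_degree _ _ _ _ _ _ _ _ _ fun _ i1 i2 i3 => by
        have b := h2 (i2 (by norm_num)); omega

theorem form_B (α β γ : k[X]) (h0 : β ≠ 0)
    (h1 : α ≠ 0 → 3 * α.natDegree < 3 * β.natDegree + 7)
    (h2 : γ ≠ 0 → 3 * γ.natDegree + 11 < 3 * β.natDegree + 7) :
    (form α β γ).natDegree = 3 * β.natDegree + 7 := by
  have e : form α β γ = β ^ 3 * X ^ 7 +
      (C 1 * (α ^ 3 * β ^ 0 * γ ^ 0 * X ^ 0) + (C 1 * (α ^ 0 * β ^ 0 * γ ^ 3 * X ^ 11) +
      (C 16 * (α ^ 2 * β ^ 0 * γ ^ 1 * X ^ 0) +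
      (C 64 * (α ^ 1 * β ^ 0 * γ ^ 2 * X ^ 0) + (C (-8) * (α ^ 1 * β ^ 2 * γ ^ 0 * X ^ 1) +
      (C (-3) * (α ^ 1 * β ^ 1 * γ ^ 1 * X ^ 6) +
        C (-8) * (α ^ 0 * β ^ 1 * γ ^ 2 * X ^ 6))))))) := by
    unfold form; rw [C_1]; ring
  rw [e]
  apply eq_of
  · rw [degree_mul, degree_pow, degree_X_pow, degree_eq_natDegree h0]
    push_cast; rfl
  · refine lt_add ?_ (lt_add ?_ (lt_add ?_ (lt_add ?_ (lt_add ?_ (lt_add ?_ ?_)))))
    · exact term_degree _ _ _ _ _ _ _ _ _ fun _ i1 i2 i3 => by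
        have a := h1 (i1 (by norm_num)); omega
    · exact term_degree _ _ _ _ _ _ _ _ _ fun _ i1 i2 i3 => by
        have b := h2 (i3 (by norm_num)); omega
    · exact term_degree _ _ _ _ _ _ _ _ _ fun _ i1 i2 i3 => by
        have a := h1 (i1 (by norm_num)); have b := h2 (i3 (by norm_num)); omega
    · exact term_degree _ _ _ _ _ _ _ _ _ fun _ i1 i2 i3 => by
        have a := h1 (i1 (by norm_num)); have b := h2 (i3 (by norm_num)); omega
    · exact term_degree _ _ _ _ _ _ _ _ _ fun _ i1 i2 i3 => by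
        have a := h1 (i1 (by norm_num)); omega
    · exact term_degree _ _ _ _ _ _ _ _ _ fun _ i1 i2 i3 => by
        have a := h1 (i1 (by norm_num)); have b := h2 (i3 (by norm_num)); omega
    · exact term_degree _ _ _ _ _ _ _ _ _ fun _ i1 i2 i3 => by
        have b := h2 (i3 (by norm_num)); omega

theorem form_C (α β γ : k[X]) (h0 : α ≠ 0)
    (h1 : β ≠ 0 → 3 * β.natDegree + 7 < 3 * α.natDegree)
    (h2 : γ ≠ 0 → 3 * γ.natDegree + 11 < 3 * α.natDegree) :
    (form α β γ).natDegree = 3 * α.natDegree := by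
  have e : form α β γ = α ^ 3 + (C 1 * (α ^ 0 * β ^ 3 * γ ^ 0 * X ^ 7) +
      (C 1 * (α ^ 0 * β ^ 0 * γ ^ 3 * X ^ 11) +
      (C 16 * (α ^ 2 * β ^ 0 * γ ^ 1 * X ^ 0) +
      (C 64 * (α ^ 1 * β ^ 0 * γ ^ 2 * X ^ 0) + (C (-8) * (α ^ 1 * β ^ 2 * γ ^ 0 * X ^ 1) +
      (C (-3) * (α ^ 1 * β ^ 1 * γ ^ 1 * X ^ 6) +
        C (-8) * (α ^ 0 * β ^ 1 * γ ^ 2 * X ^ 6))))))) := by
    unfold form; rw [C_1]; ring
  rw [e]
  apply eq_of
  · rw [degree_pow, degree_eq_natDegree h0]
    push_cast; rfl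
  · refine lt_add ?_ (lt_add ?_ (lt_add ?_ (lt_add ?_ (lt_add ?_ (lt_add ?_ ?_)))))
    · exact term_degree _ _ _ _ _ _ _ _ _ fun _ i1 i2 i3 => by
        have a := h1 (i2 (by norm_num)); omega
    · exact term_degree _ _ _ _ _ _ _ _ _ fun _ i1 i2 i3 => by
        have b := h2 (i3 (by norm_num)); omega
    · exact term_degree _ _ _ _ _ _ _ _ _ fun _ i1 i2 i3 => by
        have b := h2 (i3 (by norm_num)); omega
    · exact term_degree _ _ _ _ _ _ _ _ _ fun _ i1 i2 i3 => by
        have b := h2 (i3 (by norm_num)); omega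
    · exact term_degree _ _ _ _ _ _ _ _ _ fun _ i1 i2 i3 => by
        have a := h1 (i2 (by norm_num)); omega
    · exact term_degree _ _ _ _ _ _ _ _ _ fun _ i1 i2 i3 => by
        have a := h1 (i2 (by norm_num)); have b := h2 (i3 (by norm_num)); omega
    · exact term_degree _ _ _ _ _ _ _ _ _ fun _ i1 i2 i3 => by
        have a := h1 (i2 (by norm_num)); have b := h2 (i3 (by norm_num)); omega

theorem form_natDegree (α β γ : k[X]) : (form α β γ).natDegree ≠ 5 := by
  by_cases hA : γ ≠ 0 ∧ (α ≠ 0 → 3 * α.natDegree < 3 * γ.natDegree + 11) ∧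
      (β ≠ 0 → 3 * β.natDegree + 7 < 3 * γ.natDegree + 11)
  · rw [form_A α β γ hA.1 hA.2.1 hA.2.2]
    omega
  by_cases hB : β ≠ 0 ∧ (α ≠ 0 → 3 * α.natDegree < 3 * β.natDegree + 7) ∧
      (γ ≠ 0 → 3 * γ.natDegree + 11 < 3 * β.natDegree + 7)
  · rw [form_B α β γ hB.1 hB.2.1 hB.2.2]
    omega
  by_cases hC : α ≠ 0
  · have h1 : β ≠ 0 → 3 * β.natDegree + 7 < 3 * α.natDegree := by
      intro hβ
      by_contra hcon
      apply hB
      refine ⟨hβ, fun _ => by omega, fun hγ => ?_⟩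
      by_contra h3
      exact hA ⟨hγ, fun _ => by omega, fun _ => by omega⟩
    have h2 : γ ≠ 0 → 3 * γ.natDegree + 11 < 3 * α.natDegree := by
      intro hγ
      by_contra hcon
      apply hA
      exact ⟨hγ, fun _ => by omega, fun hβ => by have := h1 hβ; omega⟩
    rw [form_C α β γ hC h1 h2]
    omega
  · push Not at hC
    subst hC
    have hβ : β = 0 := by
      by_contra hβ
      apply hB
      refine ⟨hβ, fun h => absurd rfl h, fun hγ => ?_⟩
      by_contra h3
      exact hA ⟨hγ, fun h => absurd rfl h, fun _ => by omega⟩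
    subst hβ
    have hγ : γ = 0 := by
      by_contra hγ
      exact hA ⟨hγ, fun h => absurd rfl h, fun h => absurd rfl h⟩
    subst hγ
    simp [form]

/-- The norm of an integral element does not have degree `5`. -/
theorem Dat.norm_int (h : Dat K F x z) (w : F) (hw : IsIntegral k[X] w) :
    ∃ p : k[X], Algebra.norm K w = algebraMap k[X] K p ∧ p.natDegree ≠ 5 := by
  obtain ⟨α, β, γ, rfl⟩ := h.int w hw
  exact ⟨_, h.norm_form α β γ, form_natDegree α β γ⟩

end Q286.JF
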