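import Mathlib
import Pool.Agent.Q286.JF.Norm
import Pool.Agent.Q286.JF.Ident

/-! # The norm over `𝔽₁₉₉(y)` -/

set_option autoImplicit false

namespace Q286.JF

open Polynomial

/-- Over the curve `y ^ 11 = x (8 - x) ^ 2` there is a multiplicative function `N` with values in a
field `K ⊇ 𝔽₁₉₉[X]`, the norm over `𝔽₁₉₉(y)`, such that `N w` is a polynomial of degree `≠ 5` for all
`w` integral over `𝔽₁₉₉[y]`, and `N (ef y z)` has degree `10`. -/
theorem core {F : Type} [Field F] [Algebra k F] (x y : F) (hx : Transcendental k x)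
    (hxy : y ^ 11 = x * (8 - x) ^ 2) (htop : IntermediateField.adjoin k {x, y} = ⊤) :
    y ≠ 0 ∧ ∃ (K : Type) (_ : Field K) (_ : Algebra k[X] K) (_ : IsFractionRing k[X] K)
      (N : F →* K),
      (∀ w : F, IsIntegral (Algebra.adjoin k {y}) w →
        ∃ p : k[X], N w = algebraMap k[X] K p ∧ p.natDegree ≠ 5) ∧
      ∃ p : k[X], N (ef y ((x ^ 2 - 8 * x) / y ^ 5)) = algebraMap k[X] K p ∧ p.natDegree = 10 := by
  have h199 : (199 : F) = 0 := by
    have : (199 : F) = algebraMap k F 199 := (map_ofNat _ 199).symm
    rw [this, show (199 : k) = 0 from rfl, map_zero]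
  -- `x` is integral over `k[y]`
  have hxint : IsIntegral (Algebra.adjoin k {y}) x := by
    let Y : Algebra.adjoin k {y} := ⟨y, Algebra.subset_adjoin rfl⟩
    refine ⟨X ^ 3 + (C (-16) * X ^ 2 + C 64 * X + C (-(Y ^ 11))), monic_X_pow_add ?_, ?_⟩
    · exact degree_quadratic_le.trans_lt (by norm_num)
    · have hY : algebraMap (Algebra.adjoin k {y}) F Y = y := rfl
      simp only [eval₂_add, eval₂_mul, eval₂_pow, eval₂_X, eval₂_C]
      simp only [map_neg, map_pow, map_ofNat, hY]
      linear_combination -hxy
  have hy : Transcendental k y := by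
    intro hy
    apply hx
    have h1 : Algebra.IsIntegral k (Algebra.adjoin k {y}) :=
      Algebra.IsIntegral.adjoin fun a ha => by
        rw [Set.mem_singleton_iff.1 ha]; exact hy.isIntegral
    exact (isIntegral_trans (R := k) x hxint).isAlgebraic
  have hy0 : y ≠ 0 := fun h => hy (h ▸ isAlgebraic_zero)
  refine ⟨hy0, ?_⟩
  let φ : k[X] →+* F := (aeval y).toRingHom
  have hφinj : Function.Injective φ := transcendental_iff_injective.1 hy
  let _ : Algebra k[X] F := φ.toAlgebra
  have hφ : algebraMap k[X] F = φ := rfl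
  have hφX : algebraMap k[X] F X = y := by rw [hφ]; exact aeval_X y
  let K := FractionRing k[X]
  let _ : Algebra K F := (IsFractionRing.lift (K := K) hφinj).toAlgebra
  have : IsScalarTower k[X] K F := IsScalarTower.of_algebraMap_eq fun p => by
    change φ p = IsFractionRing.lift (K := K) hφinj (algebraMap k[X] K p)
    rw [IsFractionRing.lift_algebraMap]
  set z : F := (x ^ 2 - 8 * x) / y ^ 5 with hz
  have hz5 : y ^ 5 * z = x ^ 2 - 8 * x := by rw [hz]; field_simp
  have hkF : ∀ c : k, algebraMap k F c = algebraMap K F (algebraMap k[X] K (C c)) := by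
    intro c
    rw [← IsScalarTower.algebraMap_apply, hφ]
    exact (aeval_C y c).symm
  have dat : Dat K F x z := by
    refine ⟨?_, ?_, ?_, ?_⟩
    · rw [hφX]
      have h5 : y ^ 10 ≠ 0 := pow_ne_zero _ hy0
      apply mul_left_cancel₀ h5
      linear_combination (y ^ 5 * z + x ^ 2 - 8 * x) * hz5 - x * hxy
    · rw [hφX]
      apply mul_left_cancel₀ (pow_ne_zero 5 hy0)
      linear_combination (x - 8) * hz5 - hxy
    · rw [hφX]
      linear_combination -hz5
    · rw [eq_top_iff]
      intro w _
      have h1 : w ∈ IntermediateField.adjoin k {x, y} := by rw [htop]; trivial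
      induction h1 using IntermediateField.adjoin_induction with
      | mem a ha =>
        rcases ha with rfl | ha
        · exact IntermediateField.subset_adjoin K {a} rfl
        · rw [Set.mem_singleton_iff.1 ha, ← hφX, IsScalarTower.algebraMap_apply k[X] K F]
          exact (IntermediateField.adjoin K {x}).algebraMap_mem _
      | algebraMap c => rw [hkF]; exact (IntermediateField.adjoin K {x}).algebraMap_mem _
      | add a b _ _ ha hb => exact add_mem (ha trivial) (hb trivial)
      | inv a _ ha => exact inv_mem (ha trivial)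
      | mul a b _ _ ha hb => exact mul_mem (ha trivial) (hb trivial)
  refine ⟨K, inferInstance, inferInstance, inferInstance, Algebra.norm K, ?_, ?_⟩
  · intro w hw
    apply dat.norm_int w
    obtain ⟨p, hp, hpw⟩ := hw
    let ψ : k[X] →+* Algebra.adjoin k {y} :=
      ((aeval (⟨y, Algebra.subset_adjoin rfl⟩ : Algebra.adjoin k {y})) :
        k[X] →ₐ[k] Algebra.adjoin k {y}).toRingHom
    have hψ : ∀ q : k[X], ((ψ q : Algebra.adjoin k {y}) : F) = algebraMap k[X] F q := by
      intro q
      have := aeval_algebraMap_apply F (⟨y, Algebra.subset_adjoin rfl⟩ : Algebra.adjoin k {y}) q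
      exact this.symm
    have hsurj : Function.Surjective ψ := by
      rintro ⟨a, ha⟩
      rw [Algebra.adjoin_singleton_eq_range_aeval] at ha
      obtain ⟨q, hq⟩ := ha
      exact ⟨q, Subtype.ext ((hψ q).trans hq)⟩
    have hl : p ∈ Polynomial.lifts ψ := by
      rw [Polynomial.lifts_iff_coeff_lifts]
      intro n
      exact hsurj _
    obtain ⟨q, hq, -, hqm⟩ := Polynomial.lifts_and_natDegree_eq_and_monic hl hp
    refine ⟨q, hqm, ?_⟩
    rw [← hq, eval₂_map] at hpw
    rw [← hpw]
    congr 1
    exact RingHom.ext fun q => (hψ q).symm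
  · refine ⟨form (C 131 + C 109 * X + C 116 * X ^ 2 + C 166 * X ^ 3) (C 115 + X) 0, ?_, ?_⟩
    · rw [← dat.norm_form]
      congr 1
      have hC : ∀ c : k, algebraMap k[X] F (C c) = algebraMap k F c := fun c => aeval_C y c
      simp only [map_add, map_mul, map_pow, hφX, map_zero, hC, map_ofNat, ef]
      ring
    · have h1 : (C 115 + X : k[X]).natDegree = 1 := by
        rw [add_comm]; exact natDegree_X_add_C _
      have h2 : (C 115 + X : k[X]) ≠ 0 := by
        intro h; rw [h, natDegree_zero] at h1; omega
      have h3 : (C 131 + C 109 * X + C 116 * X ^ 2 + C 166 * X ^ 3 : k[X]).natDegree ≤ 3 := by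
        compute_degree
      rw [form_B _ _ _ h2 (fun _ => by rw [h1]; omega) (fun h => absurd rfl h), h1]

end Q286.JF
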