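import Mathlib
import Pool.Agent.Q286.JF.Core

/-! # The class number of the function field of `y ^ 11 = x (8 - x) ^ 2` over `𝔽₁₉₉` is even -/

set_option autoImplicit false

namespace Q286.JF

open Polynomial FunctionField

/-- Let `O` be a Dedekind domain with finite class group, `f, u, g ∈ O` with `f g = u ^ 2`,
`(f, u, g) = O`, and `f` not of the form `unit * h ^ 2`. Then the class number is even. -/
theorem even_class {O : Type} [CommRing O] [IsDedekindDomain O]
    [Fintype (ClassGroup O)] (f u g r s t : O) (hf : f ≠ 0) (h1 : f * g = u ^ 2)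
    (h2 : r * f + s * u + t * g = 1) (h3 : ∀ v h : O, IsUnit v → f ≠ v * h ^ 2) :
    2 ∣ Fintype.card (ClassGroup O) := by
  let I : Ideal O := Ideal.span {f, u}
  have hI0 : I ≠ ⊥ := by
    intro h
    have : f ∈ I := Ideal.subset_span (by simp)
    rw [h] at this
    exact hf this
  have hI2 : I * I = Ideal.span {f} := by
    apply le_antisymm
    · rw [Ideal.span_mul_span', Ideal.span_le]
      rintro _ ⟨a, ha, b, hb, rfl⟩
      simp only [Set.mem_insert_iff, Set.mem_singleton_iff] at ha hb
      rw [SetLike.mem_coe, Ideal.mem_span_singleton]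
      rcases ha with rfl | rfl <;> rcases hb with rfl | rfl
      · exact Dvd.intro _ rfl
      · exact Dvd.intro _ rfl
      · exact Dvd.intro_left _ rfl
      · exact ⟨g, by simp only; rw [h1]; ring⟩
    · rw [Ideal.span_singleton_le_iff_mem]
      have hfI : f ∈ I := Ideal.subset_span (by simp)
      have huI : u ∈ I := Ideal.subset_span (by simp)
      have e : f = r * (f * f) + s * (f * u) + t * (u * u) := by
        linear_combination (-f) * h2 + t * h1
      rw [e]
      exact Ideal.add_mem _ (Ideal.add_mem _ (Ideal.mul_mem_left _ _ (Ideal.mul_mem_mul hfI hfI))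
        (Ideal.mul_mem_left _ _ (Ideal.mul_mem_mul hfI huI)))
        (Ideal.mul_mem_left _ _ (Ideal.mul_mem_mul huI huI))
  let I' : nonZeroDivisors (Ideal O) := ⟨I, mem_nonZeroDivisors_of_ne_zero hI0⟩
  have hne : ClassGroup.mk0 I' ≠ 1 := by
    intro h
    rw [ClassGroup.mk0_eq_one_iff] at h
    obtain ⟨a, ha⟩ := h.principal
    have ha' : I = Ideal.span {a} := ha
    rw [ha', Ideal.span_singleton_mul_span_singleton, Ideal.span_singleton_eq_span_singleton] at hI2
    obtain ⟨v, hv⟩ := hI2
    exact h3 v a v.isUnit (by rw [← hv]; ring)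
  have hsq : ClassGroup.mk0 I' ^ 2 = 1 := by
    rw [← map_pow, ClassGroup.mk0_eq_one_iff]
    have e : ((I' ^ 2 : nonZeroDivisors (Ideal O)) : Ideal O) = Ideal.span {f} := by
      rw [SubmonoidClass.coe_pow, sq]; exact hI2
    rw [e]
    exact ⟨⟨f, rfl⟩⟩
  have h4 : orderOf (ClassGroup.mk0 I') = 2 := orderOf_eq_prime hsq hne
  rw [← h4]
  exact orderOf_dvd_card

theorem int_x {F : Type} [Field F] [Algebra k F] (x y : F) (hxy : y ^ 11 = x * (8 - x) ^ 2) :
    IsIntegral (Algebra.adjoin k {y}) x := by
  let Y : Algebra.adjoin k {y} := ⟨y, Algebra.subset_adjoin rfl⟩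
  refine ⟨X ^ 3 + (C (-16) * X ^ 2 + C 64 * X + C (-(Y ^ 11))), monic_X_pow_add ?_, ?_⟩
  · exact degree_quadratic_le.trans_lt (by norm_num)
  · have hY : algebraMap (Algebra.adjoin k {y}) F Y = y := rfl
    simp only [eval₂_add, eval₂_mul, eval₂_pow, eval₂_X, eval₂_C]
    simp only [map_neg, map_pow, map_ofNat, hY]
    linear_combination -hxy

theorem int_adjoin {F : Type} [Field F] [Algebra k F] [Algebra k[X] F] [IsScalarTower k k[X] F]
    (x y : F) (hX : algebraMap k[X] F X = x) (hxy : y ^ 11 = x * (8 - x) ^ 2) (w : F)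
    (hw : IsIntegral k[X] w) : IsIntegral (Algebra.adjoin k {y}) w := by
  have hx := int_x x y hxy
  let B := integralClosure (Algebra.adjoin k {y}) F
  have hmem : ∀ p : k[X], algebraMap k[X] F p ∈ B := by
    intro p
    induction p using Polynomial.induction_on' with
    | add p q hp hq => rw [map_add]; exact add_mem hp hq
    | monomial n c =>
      rw [← C_mul_X_pow_eq_monomial, map_mul, map_pow, hX]
      refine mul_mem ?_ (pow_mem hx n)
      rw [← algebraMap_eq, ← IsScalarTower.algebraMap_apply,
        IsScalarTower.algebraMap_apply k (Algebra.adjoin k {y}) F]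
      exact B.algebraMap_mem _
  let θ : k[X] →+* B := (algebraMap k[X] F).codRestrict B.toSubring hmem
  obtain ⟨p, hp, hpw⟩ := hw
  have h1 : IsIntegral B w := by
    refine ⟨p.map θ, hp.map _, ?_⟩
    rw [eval₂_map, ← hpw]
    rfl
  exact isIntegral_trans w h1

theorem main (F : Type) [Field F] [Algebra (RatFunc k) F] [Algebra k[X] F]
    [IsScalarTower k[X] (RatFunc k) F] [FunctionField k F] [Algebra.IsSeparable (RatFunc k) F]
    (y : F) (hy : y ^ 11 = algebraMap (RatFunc k) F (RatFunc.X * (8 - RatFunc.X) ^ 2))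
    (htop : IntermediateField.adjoin (RatFunc k) {y} = ⊤) :
    2 ∣ classNumber k F := by
  let _ : Algebra k F := ((algebraMap (RatFunc k) F).comp (algebraMap k (RatFunc k))).toAlgebra
  have : IsScalarTower k (RatFunc k) F := IsScalarTower.of_algebraMap_eq fun c => rfl
  set x : F := algebraMap (RatFunc k) F RatFunc.X with hxdef
  have hxX : algebraMap k[X] F X = x := by
    rw [IsScalarTower.algebraMap_apply k[X] (RatFunc k) F, RatFunc.algebraMap_X]
  have hk : ∀ c : k, algebraMap k[X] F (C c) = algebraMap k F c := by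
    intro c
    rw [IsScalarTower.algebraMap_apply k[X] (RatFunc k) F, RatFunc.algebraMap_C,
      IsScalarTower.algebraMap_apply k (RatFunc k) F, RatFunc.algebraMap_eq_C]
  have : IsScalarTower k k[X] F := IsScalarTower.of_algebraMap_eq fun c => (hk c).symm
  have hx : Transcendental k x := by
    rw [hxdef, transcendental_algebraMap_iff (algebraMap (RatFunc k) F).injective]
    exact RatFunc.transcendental_X
  have hxy : y ^ 11 = x * (8 - x) ^ 2 := by
    rw [hy, map_mul, map_pow, map_sub, map_ofNat]
  have htop' : IntermediateField.adjoin k {x, y} = ⊤ := by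
    rw [eq_top_iff]
    intro w _
    have hxm : x ∈ IntermediateField.adjoin k {x, y} :=
      IntermediateField.subset_adjoin _ _ (by simp)
    have hym : y ∈ IntermediateField.adjoin k {x, y} :=
      IntermediateField.subset_adjoin _ _ (by simp)
    have hpoly : ∀ p : k[X], algebraMap k[X] F p ∈ IntermediateField.adjoin k {x, y} := by
      intro p
      induction p using Polynomial.induction_on' with
      | add p q hp hq => rw [map_add]; exact add_mem hp hq
      | monomial n c =>
        rw [← C_mul_X_pow_eq_monomial, map_mul, map_pow, hxX, hk]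
        exact mul_mem (IntermediateField.algebraMap_mem _ _) (pow_mem hxm n)
    have h1 : w ∈ IntermediateField.adjoin (RatFunc k) {y} := by rw [htop]; trivial
    induction h1 using IntermediateField.adjoin_induction with
    | mem a ha => rw [Set.mem_singleton_iff.1 ha]; exact hym
    | algebraMap c =>
      rw [← RatFunc.num_div_denom c, map_div₀, ← IsScalarTower.algebraMap_apply,
        ← IsScalarTower.algebraMap_apply]
      exact div_mem (hpoly _) (hpoly _)
    | add a b _ _ ha hb => exact add_mem (ha trivial) (hb trivial)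
    | inv a _ ha => exact inv_mem (ha trivial)
    | mul a b _ _ ha hb => exact mul_mem (ha trivial) (hb trivial)
  obtain ⟨hy0, K, _, _, _, N, hN1, hN2⟩ := core x y hx hxy htop'
  have h199 : (199 : F) = 0 := by
    have : (199 : F) = algebraMap k F 199 := (map_ofNat _ 199).symm
    rw [this, show (199 : k) = 0 from rfl, map_zero]
  set z : F := (x ^ 2 - 8 * x) / y ^ 5 with hz
  have hz5 : y ^ 5 * z = x ^ 2 - 8 * x := by rw [hz]; field_simp
  have hzz : z ^ 2 = x * y := by
    apply mul_left_cancel₀ (pow_ne_zero 10 hy0)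
    linear_combination (y ^ 5 * z + x ^ 2 - 8 * x) * hz5 - x * hxy
  have hzx : z * x = 8 * z + y ^ 6 := by
    apply mul_left_cancel₀ (pow_ne_zero 5 hy0)
    linear_combination (x - 8) * hz5 - hxy
  have hxx : x ^ 2 = 8 * x + y ^ 5 * z := by linear_combination -hz5
  let O := ringOfIntegers k F
  have hxO : x ∈ O := by rw [← hxX]; exact O.algebraMap_mem X
  have hyO : y ∈ O := by
    have h1 : IsIntegral k[X] (y ^ 11) := by
      rw [hxy]
      have h8 : (8 : F) ∈ O := ofNat_mem O 8
      exact mul_mem hxO (pow_mem (sub_mem h8 hxO) 2)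
    exact IsIntegral.of_pow (by norm_num) h1
  have hzO : z ∈ O := by
    have h1 : IsIntegral k[X] (z ^ 2) := by
      rw [hzz]
      exact mul_mem hxO hyO
    exact IsIntegral.of_pow (by norm_num) h1
  let xO : O := ⟨x, hxO⟩
  let yO : O := ⟨y, hyO⟩
  let zO : O := ⟨z, hzO⟩
  let ι : O →+* F := O.val.toRingHom
  have hι : Function.Injective ι := Subtype.val_injective
  have ix : ι xO = x := rfl
  have iy : ι yO = y := rfl
  have iz : ι zO = z := rfl
  have c199 : (199 : O) = 0 := hι (by rw [map_ofNat, map_zero]; exact h199)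
  have czz : zO ^ 2 = xO * yO := hι (by rw [map_pow, map_mul, ix, iy, iz]; exact hzz)
  have czx : zO * xO = 8 * zO + yO ^ 6 := hι (by
    rw [map_add, map_pow, map_mul, map_mul, map_ofNat, ix, iy, iz]; exact hzx)
  have cxx : xO ^ 2 = 8 * xO + yO ^ 5 * zO := hι (by
    rw [map_add, map_pow, map_mul, map_mul, map_pow, map_ofNat, ix, iy, iz]; exact hxx)
  have hef : ι (ef yO zO) = ef y z := by
    unfold ef
    simp only [map_add, map_mul, map_pow, map_ofNat, map_one, iy, iz]
  have hinjK : Function.Injective (algebraMap k[X] K) := IsFractionRing.injective k[X] K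
  obtain ⟨pf, hpf, hpf10⟩ := hN2
  have hne : ef y z ≠ 0 := by
    intro h0
    rw [h0] at hpf
    have h1 : pf * pf = pf := by
      apply hinjK
      rw [map_mul, ← hpf, ← map_mul, mul_zero]
    have hpf0 : pf ≠ 0 := by intro h; rw [h, natDegree_zero] at hpf10; omega
    have h2 := congrArg natDegree h1
    rw [natDegree_mul hpf0 hpf0] at h2
    omega
  have hN : ∀ w : O, ∃ p : k[X], N (ι w) = algebraMap k[X] K p ∧ p.natDegree ≠ 5 := fun w =>
    hN1 _ (int_adjoin x y hxX hxy _ w.2)
  unfold classNumber
  refine even_class (O := O) (ef yO zO) (eu yO) (eft xO yO zO) (er yO zO) (es xO yO zO) (et xO yO)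
    ?_ (id1 xO yO zO c199 czz czx) (id2 xO yO zO c199 czz czx cxx) ?_
  · intro h0
    apply hne
    rw [← hef, h0, map_zero]
  · intro v h hv hcon
    obtain ⟨v', hv'⟩ := hv.exists_right_inv
    obtain ⟨p1, h1, -⟩ := hN v
    obtain ⟨p2, h2, -⟩ := hN v'
    obtain ⟨p3, h3, h35⟩ := hN h
    have e1 : p1 * p2 = 1 := by
      apply hinjK
      rw [map_mul, ← h1, ← h2, ← map_mul, ← map_mul, hv', map_one, map_one, map_one]
    have e2 : pf = p1 * p3 ^ 2 := by
      apply hinjK
      rw [← hpf, map_mul, map_pow, ← h1, ← h3, ← hef, hcon, map_mul, map_pow, map_mul, map_pow]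
    have hp1 : p1 ≠ 0 := by rintro rfl; simp at e1
    have hp2 : p2 ≠ 0 := by rintro rfl; simp at e1
    have hpf0 : pf ≠ 0 := by intro h; rw [h, natDegree_zero] at hpf10; omega
    have hp3 : p3 ≠ 0 := by rintro rfl; simp at e2; exact hpf0 e2
    have d1 := congrArg natDegree e1
    rw [natDegree_mul hp1 hp2, natDegree_one] at d1
    have d2 := congrArg natDegree e2
    rw [natDegree_mul hp1 (pow_ne_zero 2 hp3), natDegree_pow] at d2
    omega

end Q286.JF
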